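import Pool.Agent.W443.DX.Stm4

set_option autoImplicit false

open MvPolynomial Pool.Agent.W443.DX

namespace Pool.Agent.W459.DX

theorem exists_irr {k : Type} [Field k] (f π : MvPolynomial (Fin 2) k) (hπ : Prime π)
    (q : Polynomial k) (hq : q ≠ 0) (h : π ∣ Polynomial.aeval f q) :
    ∃ q1 : Polynomial k, Irreducible q1 ∧ π ∣ Polynomial.aeval f q1 := by
  revert hq h
  refine WfDvdMonoid.induction_on_irreducible q ?_ ?_ ?_
  · intro h; exact absurd rfl h
  · intro u hu _ h
    exfalso
    have : IsUnit (Polynomial.aeval f u) := hu.map (Polynomial.aeval f)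
    exact hπ.not_unit (isUnit_of_dvd_unit h this)
  · intro a i ha hi ih _ h
    rw [map_mul] at h
    rcases hπ.dvd_or_dvd h with h1 | h1
    · exact ⟨i, hi, h1⟩
    · exact ih ha h1

theorem pder {k : Type} [Field k] (f : MvPolynomial (Fin 2) k) (q : Polynomial k) (i : Fin 2) :
    pderiv i (Polynomial.aeval f q) = Polynomial.aeval f (Polynomial.derivative q) * pderiv i f := by
  have := Derivation.map_aeval (pderiv i : Derivation k (MvPolynomial (Fin 2) k) (MvPolynomial (Fin 2) k)) q f
  rw [this, smul_eq_mul]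

theorem pts_main : S_PTS := by
  intro p _ f g hJ q r π hq hr hπi h1 h2
  have hπ : Prime π := hπi.prime
  obtain ⟨q1, hq1, hd1⟩ := exists_irr f π hπ q hq h1
  obtain ⟨r1, hr1, hd2⟩ := exists_irr g π hπ r hr h2
  have s1 : q1.Separable := PerfectField.separable_of_irreducible hq1
  have s2 : r1.Separable := PerfectField.separable_of_irreducible hr1
  obtain ⟨h, eh⟩ := hd1
  obtain ⟨h', eh'⟩ := hd2
  have a0 := congrArg (pderiv 0) eh
  have a1 := congrArg (pderiv 1) eh
  have b0 := congrArg (pderiv 0) eh'
  have b1 := congrArg (pderiv 1) eh'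
  rw [pder, Derivation.leibniz, smul_eq_mul, smul_eq_mul] at a0 a1 b0 b1
  have key : π ∣ Polynomial.aeval f (Polynomial.derivative q1) *
      Polynomial.aeval g (Polynomial.derivative r1) := by
    refine ⟨pderiv 0 π * h * pderiv 1 h' + pderiv 0 h * pderiv 1 π * h' +
      π * pderiv 0 h * pderiv 1 h' - pderiv 1 π * h * pderiv 0 h' - pderiv 1 h * pderiv 0 π * h' -
      π * pderiv 1 h * pderiv 0 h', ?_⟩
    have e : Polynomial.aeval f (Polynomial.derivative q1) *
        Polynomial.aeval g (Polynomial.derivative r1) =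
        (Polynomial.aeval f (Polynomial.derivative q1) * pderiv 0 f) *
          (Polynomial.aeval g (Polynomial.derivative r1) * pderiv 1 g) -
        (Polynomial.aeval f (Polynomial.derivative q1) * pderiv 1 f) *
          (Polynomial.aeval g (Polynomial.derivative r1) * pderiv 0 g) := by
      unfold Jac at hJ
      linear_combination (-(Polynomial.aeval f (Polynomial.derivative q1) *
        Polynomial.aeval g (Polynomial.derivative r1))) * hJ
    rw [e, a0, a1, b0, b1]
    ring
  rcases hπ.dvd_or_dvd key with hk | hk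
  · obtain ⟨a, b, hab⟩ := s1
    have := congrArg (Polynomial.aeval f) hab
    rw [map_add, map_mul, map_mul, map_one] at this
    apply hπ.not_unit
    apply isUnit_of_dvd_one
    rw [← this]
    exact dvd_add (Dvd.dvd.mul_left ⟨h, eh⟩ _) (Dvd.dvd.mul_left hk _)
  · obtain ⟨a, b, hab⟩ := s2
    have := congrArg (Polynomial.aeval g) hab
    rw [map_add, map_mul, map_mul, map_one] at this
    apply hπ.not_unit
    apply isUnit_of_dvd_one
    rw [← this]
    exact dvd_add (Dvd.dvd.mul_left ⟨h', eh'⟩ _) (Dvd.dvd.mul_left hk _)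

end Pool.Agent.W459.DX
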